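import Pool.Agent.Q7.CJ.Stm

/-!
# Norms from Kummer extensions as products of conjugates, and elements of the field of fractions of the coordinate ring
-/

set_option autoImplicit false

open Polynomial Pool.Agent.Q7.CJ

namespace Pool.Agent.Q164.CJ

/-- the norm of a Kummer extension of prime degree is the product of the conjugates -/
theorem norm_prod {K : Type} [Field K] {p : ℕ} [Fact p.Prime] {ζ : K} (hζ : IsPrimitiveRoot ζ p) {a : K}
    (H : Irreducible (X ^ p - C a : K[X]))
    (τ : ℕ → (AdjoinRoot (X ^ p - C a : K[X]) →ₐ[K] AdjoinRoot (X ^ p - C a : K[X])))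
    (hτ : ∀ i, τ i (AdjoinRoot.root _) = (ζ ^ i) • AdjoinRoot.root (X ^ p - C a : K[X]))
    (z : AdjoinRoot (X ^ p - C a : K[X])) :
    algebraMap K (AdjoinRoot (X ^ p - C a : K[X])) (Algebra.norm K z) = ∏ i ∈ Finset.range p, τ i z := by
  classical
  have hp := (Fact.out (p := p.Prime))
  have : NeZero p := ⟨hp.ne_zero⟩
  have := Fact.mk H
  have hprim : (primitiveRoots p K).Nonempty := ⟨ζ, (mem_primitiveRoots hp.pos).2 hζ⟩
  have hsf : IsSplittingField K (AdjoinRoot (X ^ p - C a : K[X])) (X ^ p - C a) :=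
    isSplittingField_AdjoinRoot_X_pow_sub_C hprim H
  have hG : IsGalois K (AdjoinRoot (X ^ p - C a : K[X])) :=
    isGalois_of_isSplittingField_X_pow_sub_C hprim H _
  have : FiniteDimensional K (AdjoinRoot (X ^ p - C a : K[X])) :=
    (AdjoinRoot.powerBasis (X_pow_sub_C_ne_zero hp.pos a)).finite
  rw [Algebra.norm_eq_prod_automorphisms]
  -- the roots of unity
  let e : Fin p → rootsOfUnity p K := fun i => hζ.toRootsOfUnity ^ (i : ℕ)
  have he : ∀ i, (((e i : rootsOfUnity p K) : Kˣ) : K) = ζ ^ (i : ℕ) := by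
    intro i
    simp [e]
  have hbij : Function.Bijective e := by
    have : Fintype (rootsOfUnity p K) := Fintype.ofFinite _
    rw [Fintype.bijective_iff_injective_and_card]
    constructor
    · intro i j hij
      have h1 : ζ ^ (i : ℕ) = ζ ^ (j : ℕ) := by rw [← he i, ← he j, hij]
      exact Fin.ext (hζ.pow_inj i.2 j.2 h1)
    · rw [Fintype.card_fin, ← Nat.card_eq_fintype_card, hζ.card_rootsOfUnity]
  let E := (Equiv.ofBijective e hbij).trans (autAdjoinRootXPowSubCEquiv hprim H).toEquiv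
  rw [← Equiv.prod_comp E, Finset.prod_range]
  apply Finset.prod_congr rfl
  intro i _
  have h2 : ((E i : AdjoinRoot (X ^ p - C a : K[X]) ≃ₐ[K] AdjoinRoot (X ^ p - C a : K[X])) :
      AdjoinRoot (X ^ p - C a : K[X]) →ₐ[K] AdjoinRoot (X ^ p - C a : K[X])) = τ i := by
    apply AdjoinRoot.algHom_ext
    rw [hτ]
    change autAdjoinRootXPowSubCEquiv hprim H (e i) (AdjoinRoot.root _) = _
    rw [autAdjoinRootXPowSubCEquiv_root, he]
  rw [← h2]
  rfl

section

variable (p : ℕ) [Fact p.Prime] [Fact (p ≠ 2)] {M : Type} [Field M]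

/-- the field of the rational functions in `y` -/
abbrev KK (M : Type) [Field M] : Type := FractionRing M[X]

/-- the function `y (y + D)` -/
noncomputable def aa (D : M) : KK M := algebraMap M[X] (KK M) (X ^ 2 + C D * X)

/-- the field of fractions of the coordinate ring -/
abbrev EE (D : M) : Type := AdjoinRoot (X ^ p - C (aa D) : (KK M)[X])

omit [Fact p.Prime] [Fact (p ≠ 2)] in
theorem ff_map (D : M) : (ff p D).map (algebraMap M[X] (KK M)) = X ^ p - C (aa D) := by
  unfold ff aa
  rw [Polynomial.map_sub, Polynomial.map_pow, map_X, map_C]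

theorem irrK (D : M) : Irreducible (X ^ p - C (aa D) : (KK M)[X]) := by
  rw [← ff_map]
  exact ((ff_monic p D).irreducible_iff_irreducible_map_fraction_map (K := KK M)).1 (ff_irr p D)

/-- the inclusion of the coordinate ring -/
noncomputable def inc (D : M) : BR p D →+* EE p D :=
  AdjoinRoot.map (algebraMap M[X] (KK M)) (ff p D) (X ^ p - C (aa D)) (by rw [ff_map])

omit [Fact p.Prime] [Fact (p ≠ 2)] in
theorem inc_of (D : M) (g : M[X]) : inc p D (AdjoinRoot.of (ff p D) g) =
    algebraMap (KK M) (EE p D) (algebraMap M[X] (KK M) g) := by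
  unfold inc
  exact AdjoinRoot.map_of _ _ _ _ _

omit [Fact p.Prime] [Fact (p ≠ 2)] in
theorem inc_xx (D : M) : inc p D (xx p D) = AdjoinRoot.root _ := by
  unfold inc xx
  exact AdjoinRoot.map_root _ _ _ _

omit [Fact p.Prime] [Fact (p ≠ 2)] in
theorem inc_mk (D : M) (q : M[X][X]) : inc p D (AdjoinRoot.mk (ff p D) q) =
    AdjoinRoot.mk (X ^ p - C (aa D) : (KK M)[X]) (q.map (algebraMap M[X] (KK M))) := by
  have h : (inc p D).comp (AdjoinRoot.mk (ff p D)) =
      (AdjoinRoot.mk (X ^ p - C (aa D) : (KK M)[X])).comp (mapRingHom (algebraMap M[X] (KK M))) := by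
    apply Polynomial.ringHom_ext
    · intro a
      simp only [RingHom.comp_apply, coe_mapRingHom, map_C]
      rw [AdjoinRoot.mk_C, inc_of, AdjoinRoot.mk_C]
      rfl
    · simp only [RingHom.comp_apply, coe_mapRingHom, map_X]
      rw [AdjoinRoot.mk_X, AdjoinRoot.mk_X]
      exact inc_xx p D
  exact congrArg (fun f => f q) (congrArg DFunLike.coe h)

theorem inc_inj (D : M) : Function.Injective (inc p D) := by
  rw [injective_iff_map_eq_zero]
  intro z hz
  obtain ⟨q, rfl⟩ := AdjoinRoot.mk_surjective z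
  rw [inc_mk, AdjoinRoot.mk_eq_zero, ← ff_map,
    Polynomial.map_dvd_map _ (IsFractionRing.injective M[X] (KK M)) (ff_monic p D)] at hz
  rw [AdjoinRoot.mk_eq_zero]
  exact hz

/-- the conjugations -/
noncomputable def tau (D ζ : M) (h : ζ ^ p = 1) (i : ℕ) : EE p D →ₐ[KK M] EE p D :=
  AdjoinRoot.liftAlgHom (X ^ p - C (aa D)) (Algebra.ofId (KK M) (EE p D))
    ((algebraMap M[X] (KK M) (C ζ) ^ i) • AdjoinRoot.root _) (by
      have h1 : (algebraMap M[X] (KK M) (C ζ) ^ i) ^ p = 1 := by
        rw [← pow_mul, mul_comm, pow_mul, ← map_pow, ← C_pow, h, C_1, map_one, one_pow]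
      rw [eval₂_sub, eval₂_X_pow, eval₂_C, _root_.smul_pow, h1, one_smul, root_X_pow_sub_C_pow, sub_eq_zero]
      rfl)

omit [Fact p.Prime] [Fact (p ≠ 2)] in
theorem tau_root (D ζ : M) (h : ζ ^ p = 1) (i : ℕ) :
    tau p D ζ h i (AdjoinRoot.root _) = (algebraMap M[X] (KK M) (C ζ) ^ i) • AdjoinRoot.root _ :=
  AdjoinRoot.liftAlgHom_root _ _ _ _

omit [Fact p.Prime] [Fact (p ≠ 2)] in
theorem tau_inc (D ζ : M) (h : ζ ^ p = 1) (i : ℕ) (b : BR p D) :
    tau p D ζ h i (inc p D b) = inc p D (sgi p D ζ h i b) := by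
  have h1 : ((tau p D ζ h i : EE p D →+* EE p D).comp (inc p D)) =
      (inc p D).comp (sgi p D ζ h i : BR p D →+* BR p D) := by
    apply AdjoinRoot.ringHom_ext
    · apply RingHom.ext
      intro g
      change tau p D ζ h i (inc p D (AdjoinRoot.of (ff p D) g)) = inc p D (sgi p D ζ h i (AdjoinRoot.of (ff p D) g))
      unfold sgi
      rw [sg_of, inc_of, AlgHom.commutes]
    · change tau p D ζ h i (inc p D (xx p D)) = inc p D (sgi p D ζ h i (xx p D))
      unfold sgi
      rw [sg_xx, inc_xx, tau_root, map_mul, inc_xx]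
      unfold cc
      rw [inc_of, Algebra.smul_def, C_pow]
      simp only [map_pow]
  exact congrArg (fun f => f b) (congrArg DFunLike.coe h1)

/-- a norm from the field of fractions of the coordinate ring -/
theorem norm_repr (D ζ : M) (h : ζ ^ p = 1) (hζ : IsPrimitiveRoot ζ p) (g : M[X])
    (hg : Nr p (aa D) (algebraMap M[X] (KK M) g)) :
    ∃ a : M[X], a ≠ 0 ∧ ∃ b : BR p D,
      ∏ i ∈ Finset.range p, sgi p D ζ h i b = AdjoinRoot.of (ff p D) (a ^ p * g) := by
  classical
  obtain ⟨t, ht⟩ := hg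
  obtain ⟨q, rfl⟩ := AdjoinRoot.mk_surjective t
  obtain ⟨a, ha0, ha⟩ := IsLocalization.integerNormalization_spec (nonZeroDivisors M[X]) q
  refine ⟨a, nonZeroDivisors.ne_zero ha0, AdjoinRoot.mk (ff p D)
    (IsLocalization.integerNormalization (nonZeroDivisors M[X]) q), ?_⟩
  apply inc_inj
  have hζK : IsPrimitiveRoot (algebraMap M[X] (KK M) (C ζ)) p :=
    (hζ.map_of_injective (f := C) C_injective).map_of_injective (IsFractionRing.injective M[X] (KK M))
  rw [map_prod, inc_of]
  have h1 : ∀ i ∈ Finset.range p, inc p D (sgi p D ζ h i (AdjoinRoot.mk (ff p D)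
      (IsLocalization.integerNormalization (nonZeroDivisors M[X]) q))) =
      tau p D ζ h i (inc p D (AdjoinRoot.mk (ff p D)
      (IsLocalization.integerNormalization (nonZeroDivisors M[X]) q))) := by
    intro i _
    rw [tau_inc]
  rw [Finset.prod_congr rfl h1, ← norm_prod hζK (irrK p D) (tau p D ζ h) (tau_root p D ζ h), inc_mk, ha]
  congr 1
  have h2 : AdjoinRoot.mk (X ^ p - C (aa D) : (KK M)[X]) (a • q) =
      algebraMap (KK M) (EE p D) (algebraMap M[X] (KK M) a) * AdjoinRoot.mk _ q := by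
    rw [← algebraMap_smul (KK M) a q, ← C_mul', map_mul, AdjoinRoot.mk_C]
    rfl
  rw [h2, map_mul, ht, Algebra.norm_algebraMap, map_mul, map_pow]
  congr 2
  have h3 := (AdjoinRoot.powerBasis (X_pow_sub_C_ne_zero (Fact.out (p := p.Prime)).pos (aa D))).finrank
  rw [AdjoinRoot.powerBasis_dim, natDegree_X_pow_sub_C] at h3
  exact h3

end

end Pool.Agent.Q164.CJ
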