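import Pool.Agent.Q164.CJ.Clos1

/-!
# Over a finite extension every class is in the image of `1 - σ`
-/

set_option autoImplicit false

open Polynomial Pool.Agent.Q7.CJ

namespace Pool.Agent.Q164.CJ

theorem comp_dvd {R : Type} [CommRing R] {f g : R[X]} (h : f ∣ g) (q : R[X]) : f.comp q ∣ g.comp q := by
  obtain ⟨r, rfl⟩ := h
  rw [mul_comp]
  exact dvd_mul_right _ _

/-- a finite Galois extension over which all the needed `p`-th roots exist -/
theorem exists_field (L : Type) [Field L] [CharZero L] (p : ℕ) (hp : 0 < p) (D : L) (g : L[X]) (hg : g.Monic) :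
    ∃ (M : Type) (_ : Field M) (_ : Algebra L M), FiniteDimensional L M ∧ IsGalois L M ∧
      ∃ s : Multiset M, g.map (algebraMap L M) = (s.map (fun y => X - C y)).prod ∧
        ∀ y ∈ s, (∃ a : M, a ^ p = y) ∧ ∃ b : M, b ^ p = y + algebraMap L M D := by
  have hX : (X ^ p : L[X]).Monic := monic_X_pow p
  have hX1 : (X ^ p : L[X]).natDegree ≠ 0 := by
    rw [natDegree_X_pow]
    exact hp.ne'
  have hXD : (X ^ p - C D : L[X]).Monic := monic_X_pow_sub_C D hp.ne'
  have hXD1 : (X ^ p - C D : L[X]).natDegree ≠ 0 := by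
    rw [natDegree_X_pow_sub_C]
    exact hp.ne'
  set f1 : L[X] := g.comp (X ^ p) with hf1
  set f2 : L[X] := g.comp (X ^ p - C D) with hf2
  have m1 : f1.Monic := hg.comp hX hX1
  have m2 : f2.Monic := hg.comp hXD hXD1
  set f : L[X] := g * (f1 * f2) with hf
  have hf0 : f ≠ 0 := (hg.mul (m1.mul m2)).ne_zero
  refine ⟨f.SplittingField, inferInstance, inferInstance, inferInstance, ⟨⟩, ?_⟩
  set φ : L →+* f.SplittingField := algebraMap L f.SplittingField with hφ
  have hs : (f.map φ).Splits := SplittingField.splits f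
  have hfm0 : f.map φ ≠ 0 := (Polynomial.map_ne_zero_iff φ.injective).2 hf0
  have hsg : (g.map φ).Splits := hs.of_dvd hfm0 (Polynomial.map_dvd φ (Dvd.intro _ rfl))
  have hs1 : (f1.map φ).Splits := hs.of_dvd hfm0 (Polynomial.map_dvd φ ⟨g * f2, by rw [hf]; ring⟩)
  have hs2 : (f2.map φ).Splits := hs.of_dvd hfm0 (Polynomial.map_dvd φ ⟨g * f1, by rw [hf]; ring⟩)
  refine ⟨(g.map φ).roots, hsg.eq_prod_roots_of_monic (hg.map φ), ?_⟩
  intro y hy
  have hy' : X - C y ∣ g.map φ := by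
    rw [dvd_iff_isRoot]
    exact isRoot_of_mem_roots hy
  constructor
  · have h1 : (X ^ p - C y : f.SplittingField[X]) ∣ f1.map φ := by
      have h2 := comp_dvd hy' (X ^ p)
      rw [sub_comp, X_comp, C_comp] at h2
      rw [hf1, Polynomial.map_comp, Polynomial.map_pow, map_X]
      exact h2
    have h3 : (X ^ p - C y : f.SplittingField[X]).Splits :=
      hs1.of_dvd ((Polynomial.map_ne_zero_iff φ.injective).2 m1.ne_zero) h1
    obtain ⟨a, ha⟩ := h3.exists_eval_eq_zero (by
      rw [degree_X_pow_sub_C hp]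
      exact_mod_cast hp.ne')
    rw [eval_sub, eval_pow, eval_X, eval_C, sub_eq_zero] at ha
    exact ⟨a, ha⟩
  · have h1 : (X ^ p - C (y + φ D) : f.SplittingField[X]) ∣ f2.map φ := by
      have h2 := comp_dvd hy' (X ^ p - C (φ D))
      rw [sub_comp, X_comp, C_comp] at h2
      rw [hf2, Polynomial.map_comp, Polynomial.map_sub, Polynomial.map_pow, map_X, map_C, C_add]
      have e : (X ^ p - (C y + C (φ D)) : f.SplittingField[X]) = X ^ p - C (φ D) - C y := by ring
      rw [e]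
      exact h2
    have h3 : (X ^ p - C (y + φ D) : f.SplittingField[X]).Splits :=
      hs2.of_dvd ((Polynomial.map_ne_zero_iff φ.injective).2 m2.ne_zero) h1
    obtain ⟨a, ha⟩ := h3.exists_eval_eq_zero (by
      rw [degree_X_pow_sub_C hp]
      exact_mod_cast hp.ne')
    rw [eval_sub, eval_pow, eval_X, eval_C, sub_eq_zero] at ha
    exact ⟨a, ha⟩

section

variable (p : ℕ) [Fact p.Prime] [Fact (p ≠ 2)]

/-- `u - s^p` is a norm from the extension by a `p`-th root of `u` -/
theorem nr_sub (hRS : S_RS) {K : Type} [Field K] [CharZero K] {ζ : K} (hζ : IsPrimitiveRoot ζ p) {u s : K}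
    (hu : u ≠ 0) (hne : u ≠ s ^ p) : Nr p u (u - s ^ p) := by
  have hp := (Fact.out (p := p.Prime))
  have hp2 : p ≠ 2 := Fact.out
  obtain ⟨_, _, _, _, h5, _, h7, h8, _, _⟩ := hRS p hp2 K ζ hζ
  by_cases hs : s = 0
  · rw [hs, zero_pow hp.ne_zero, sub_zero]
    exact (h7 u hu).1
  have hsp : s ^ p ≠ 0 := pow_ne_zero p hs
  have h1 : u / s ^ p ≠ 0 := div_ne_zero hu hsp
  have h2 : u / s ^ p ≠ 1 := by
    intro e
    rw [div_eq_one_iff_eq hsp] at e
    exact hne e
  have h3 : (1 : K) - u / s ^ p ≠ 0 := sub_ne_zero.2 (Ne.symm h2)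
  have h4 := h5 (u / s ^ p) (1 - u / s ^ p) s (-s) h1 h3 hs (neg_ne_zero.2 hs) (h8 _ h1 h2)
  have hodd : Odd p := hp.odd_of_ne_two hp2
  have e1 : u / s ^ p * s ^ p = u := div_mul_cancel₀ u hsp
  have e2 : (1 - u / s ^ p) * (-s) ^ p = u - s ^ p := by
    rw [hodd.neg_pow, sub_mul, one_mul, mul_neg, e1]
    ring
  rw [e1, e2] at h4
  exact h4

/-- the norm of an ideal is a norm of the extension of the rational function field -/
theorem nr_prod (hRS : S_RS) {M : Type} [Field M] [CharZero M] {ζ : M} (hζ : IsPrimitiveRoot ζ p) {D : M}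
    (s : Multiset M) (hs : ∀ y ∈ s, (∃ a : M, a ^ p = y) ∧ ∃ b : M, b ^ p = y + D) :
    Nr p (aa D) (algebraMap M[X] (KK M) (s.map (fun y => X - C y)).prod) := by
  have hp := (Fact.out (p := p.Prime))
  have hp2 : p ≠ 2 := Fact.out
  have hinj := IsFractionRing.injective M[X] (KK M)
  have : CharZero (KK M) := charZero_of_injective_algebraMap hinj
  have hζK : IsPrimitiveRoot (algebraMap M[X] (KK M) (C ζ)) p :=
    (hζ.map_of_injective (f := C) C_injective).map_of_injective hinj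
  obtain ⟨_, h2, h3, _, _, _, h7, _, _, _⟩ := hRS p hp2 (KK M) _ hζK
  have hne : ∀ q : M[X], q ≠ 0 → algebraMap M[X] (KK M) q ≠ 0 := by
    intro q hq h
    apply hq
    apply hinj
    rw [h, map_zero]
  have hX0 : algebraMap M[X] (KK M) X ≠ 0 := hne _ X_ne_zero
  have hXD0 : algebraMap M[X] (KK M) (X + C D) ≠ 0 := hne _ (X_add_C_ne_zero D)
  have haa : aa D = algebraMap M[X] (KK M) X * algebraMap M[X] (KK M) (X + C D) := by
    unfold aa
    rw [← map_mul]
    congr 1
    ring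
  have haa0 : aa D ≠ 0 := by
    rw [haa]
    exact mul_ne_zero hX0 hXD0
  have hlin : ∀ y : M, (∃ a : M, a ^ p = y) ∧ (∃ b : M, b ^ p = y + D) →
      Nr p (aa D) (algebraMap M[X] (KK M) (X - C y)) := by
    rintro y ⟨⟨a, ha⟩, b, hb⟩
    have hy0 : algebraMap M[X] (KK M) (X - C y) ≠ 0 := hne _ (X_sub_C_ne_zero y)
    have e1 : algebraMap M[X] (KK M) X - (algebraMap M[X] (KK M) (C a)) ^ p =
        algebraMap M[X] (KK M) (X - C y) := by
      rw [← map_pow, ← C_pow, ha, map_sub]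
    have e2 : algebraMap M[X] (KK M) (X + C D) - (algebraMap M[X] (KK M) (C b)) ^ p =
        algebraMap M[X] (KK M) (X - C y) := by
      rw [← map_pow, ← C_pow, hb, ← map_sub]
      congr 1
      rw [C_add]
      ring
    have n1 : Nr p (algebraMap M[X] (KK M) X) (algebraMap M[X] (KK M) (X - C y)) := by
      rw [← e1]
      apply nr_sub p hRS hζK hX0
      rw [← sub_ne_zero, e1]
      exact hy0
    have n2 : Nr p (algebraMap M[X] (KK M) (X + C D)) (algebraMap M[X] (KK M) (X - C y)) := by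
      rw [← e2]
      apply nr_sub p hRS hζK hXD0
      rw [← sub_ne_zero, e2]
      exact hy0
    rw [haa]
    exact h3 _ _ _ hX0 hXD0 hy0 n1 n2
  induction s using Multiset.induction_on with
  | empty =>
    rw [Multiset.map_zero, Multiset.prod_zero, map_one]
    exact (h7 _ haa0).2.1
  | cons y s ih =>
    rw [Multiset.map_cons, Multiset.prod_cons, map_mul]
    have hy0 : algebraMap M[X] (KK M) (X - C y) ≠ 0 := hne _ (X_sub_C_ne_zero y)
    have hs0 : algebraMap M[X] (KK M) (s.map (fun y => X - C y)).prod ≠ 0 := by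
      apply hne
      exact (monic_multiset_prod_of_monic s _ (fun y _ => monic_X_sub_C y)).ne_zero
    exact h2 _ _ _ haa0 hy0 hs0 (hlin y (hs y (Multiset.mem_cons_self y s)))
      (ih (fun z hz => hs z (Multiset.mem_cons_of_mem hz)))

omit [Fact p.Prime] [Fact (p ≠ 2)] in
theorem bc_sgi {L M : Type} [Field L] [Field M] (φ : L →+* M) (D ζ : L) (hζ : ζ ^ p = 1) (h : (φ ζ) ^ p = 1) (i : ℕ)
    (b : BR p D) : bc p φ D (φ D) rfl (sgi p D ζ hζ i b) = sgi p (φ D) (φ ζ) h i (bc p φ D (φ D) rfl b) := by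
  have h1 : (bc p φ D (φ D) rfl).comp (sgi p D ζ hζ i : BR p D →+* BR p D) =
      (sgi p (φ D) (φ ζ) h i : BR p (φ D) →+* BR p (φ D)).comp (bc p φ D (φ D) rfl) := by
    apply AdjoinRoot.ringHom_ext
    · apply RingHom.ext
      intro g
      change bc p φ D (φ D) rfl (sgi p D ζ hζ i (AdjoinRoot.of (ff p D) g)) =
        sgi p (φ D) (φ ζ) h i (bc p φ D (φ D) rfl (AdjoinRoot.of (ff p D) g))
      unfold sgi
      rw [sg_of, bc_of, sg_of]
    · change bc p φ D (φ D) rfl (sgi p D ζ hζ i (xx p D)) =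
        sgi p (φ D) (φ ζ) h i (bc p φ D (φ D) rfl (xx p D))
      unfold sgi
      rw [sg_xx, bc_xx, sg_xx, map_mul, bc_xx, bc_cc, map_pow]
  exact congrArg (fun f => f b) (congrArg DFunLike.coe h1)

end

theorem clos (hRS : S_RS) (_ : S_DED) (_ : S_MV) (hBC : S_BC) (hNI : S_NI) (hH90 : S_H90) : S_CLOS := by
  intro p _ _ L _ _ ζ hζ D hD I hI
  have hp := (Fact.out (p := p.Prime))
  obtain ⟨g, hg, hprod, _, _⟩ := hNI p L ζ hζ.pow_eq_one hζ D hD I hI
  obtain ⟨M, iM, iA, hfd, hgal, s, hs, hroots⟩ := exists_field L p hp.pos D g hg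
  refine ⟨M, iM, iA, hfd, hgal, ?_⟩
  intro h
  set φ : L →+* M := algebraMap L M with hφ
  have : CharZero M := charZero_of_injective_algebraMap φ.injective
  have hζM : IsPrimitiveRoot (φ ζ) p := hζ.map_of_injective φ.injective
  have hDM : φ D ≠ 0 := (map_ne_zero φ).2 hD
  have hNr := nr_prod p hRS hζM s hroots
  obtain ⟨a, ha0, b, hb⟩ := norm_repr p (φ D) (φ ζ) h hζM _ hNr
  rw [← hs] at hb
  set IM : Ideal (BR p (φ D)) := I.map (bc p φ D (φ D) rfl) with hIM
  have hIM0 : IM ≠ ⊥ := ((hBC p L M φ D (φ D) rfl hD).2 I hI).1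
  have hinj : Function.Injective (AdjoinRoot.of (ff p (φ D))) := by
    intro x y hxy
    apply IsFractionRing.injective M[X] (KK M)
    have h1 := congrArg (inc p (φ D)) hxy
    rw [inc_of, inc_of] at h1
    have : Fact (Irreducible (X ^ p - C (aa (φ D)) : (KK M)[X])) := ⟨irrK p (φ D)⟩
    exact (algebraMap (KK M) (EE p (φ D))).injective h1
  have hof0 : AdjoinRoot.of (ff p (φ D)) a ≠ 0 := by
    intro e
    apply ha0
    apply hinj
    rw [e, map_zero]
  have hg0 : AdjoinRoot.of (ff p (φ D)) (g.map φ) ≠ 0 := by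
    intro e
    apply (hg.map φ).ne_zero
    apply hinj
    rw [e, map_zero]
  -- the norm of `b` is not zero
  have hb0 : b ≠ 0 := by
    rintro rfl
    have h2 : ∏ i ∈ Finset.range p, sgi p (φ D) (φ ζ) h i (0 : BR p (φ D)) = 0 := by
      apply Finset.prod_eq_zero (Finset.mem_range.2 hp.pos)
      exact map_zero _
    rw [h2, map_mul, map_pow] at hb
    exact (mul_ne_zero (pow_ne_zero p hof0) hg0) hb.symm
  -- the norm of `I` over `M`
  have hNM : ∏ i ∈ Finset.range p, IM.map (sgi p (φ D) (φ ζ) h i) =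
      Ideal.span {AdjoinRoot.of (ff p (φ D)) (g.map φ)} := by
    have h3 := congrArg (Ideal.map (bc p φ D (φ D) rfl)) hprod
    rw [Ideal.map_span, Set.image_singleton, bc_of] at h3
    rw [← h3]
    have h4 : Ideal.map (bc p φ D (φ D) rfl) (∏ i ∈ Finset.range p, I.map (sgi p D ζ hζ.pow_eq_one i)) =
        ∏ i ∈ Finset.range p, Ideal.map (bc p φ D (φ D) rfl) (I.map (sgi p D ζ hζ.pow_eq_one i)) := by
      exact map_prod (Ideal.mapHom (bc p φ D (φ D) rfl)) _ _
    rw [h4]
    apply Finset.prod_congr rfl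
    intro i _
    rw [hIM]
    change Ideal.map (sgi p (φ D) (φ ζ) h i : BR p (φ D) →+* BR p (φ D)) (Ideal.map (bc p φ D (φ D) rfl) I) =
      Ideal.map (bc p φ D (φ D) rfl) (Ideal.map (sgi p D ζ hζ.pow_eq_one i : BR p D →+* BR p D) I)
    rw [Ideal.map_map, Ideal.map_map]
    congr 1
    apply RingHom.ext
    intro x
    exact (bc_sgi p φ D ζ hζ.pow_eq_one h i x).symm
  -- the two ideals
  have hI' : Ideal.span {AdjoinRoot.of (ff p (φ D)) a} * IM ≠ ⊥ := by
    rw [Ne, ← Ideal.zero_eq_bot, mul_eq_zero, Ideal.zero_eq_bot, not_or]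
    exact ⟨by rwa [Ideal.span_singleton_eq_bot], hIM0⟩
  have hJ' : Ideal.span {b} ≠ (⊥ : Ideal (BR p (φ D))) := by
    rwa [Ne, Ideal.span_singleton_eq_bot]
  have heq : ∏ i ∈ Finset.range p, (Ideal.span {AdjoinRoot.of (ff p (φ D)) a} * IM).map (sgi p (φ D) (φ ζ) h i) =
      ∏ i ∈ Finset.range p, (Ideal.span {b}).map (sgi p (φ D) (φ ζ) h i) := by
    have h5 : ∀ i ∈ Finset.range p, (Ideal.span {AdjoinRoot.of (ff p (φ D)) a} * IM).map (sgi p (φ D) (φ ζ) h i) =
        Ideal.span {AdjoinRoot.of (ff p (φ D)) a} * IM.map (sgi p (φ D) (φ ζ) h i) := by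
      intro i _
      rw [Ideal.map_mul, Ideal.map_span, Set.image_singleton]
      congr 3
      exact sg_of p (φ D) _ _ a
    have h6 : ∀ i ∈ Finset.range p, (Ideal.span {b}).map (sgi p (φ D) (φ ζ) h i) =
        Ideal.span {sgi p (φ D) (φ ζ) h i b} := by
      intro i _
      rw [Ideal.map_span, Set.image_singleton]
    rw [Finset.prod_congr rfl h5, Finset.prod_congr rfl h6, Finset.prod_mul_distrib, Finset.prod_const,
      Finset.card_range, hNM, Ideal.prod_span_singleton, hb, Ideal.span_singleton_pow,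
      Ideal.span_singleton_mul_span_singleton, map_mul, map_pow]
  obtain ⟨J, hJ, hJeq⟩ := hH90 p M (φ ζ) h hζM (φ D) hDM _ _ hI' hJ' heq
  refine ⟨J, hJ, AdjoinRoot.of (ff p (φ D)) a, b, hof0, hb0, ?_⟩
  rw [← mul_assoc]
  exact hJeq

end Pool.Agent.Q164.CJ
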